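import Mathlib

namespace Pool.Agent.Results.MP_c9cfcf_pr.Bound

open Finset
open scoped ENNReal Nat

variable {C : Type}

/-- `P (X = i) = p_i ^ 2 / f₂`. -/
noncomputable def PX (p : PMF C) (i : C) : ℝ≥0∞ := p i ^ 2 / ∑' j, p j ^ 2

/-- `P (Y = i)`, by the explicit formula. -/
noncomputable def PY (p : PMF C) (i : C) : ℝ≥0∞ :=
  p i ^ 2 * ∑' k : ℕ, ((k + 1)! : ℝ≥0∞) *
    ∑' J : {J : Finset C // i ∉ J ∧ J.card = k}, ∏ j ∈ J.1, p j

/-- The discrepancy `D (p) = 1/2 ∑_i |P (X = i) - P (Y = i)|`. -/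
noncomputable def D (p : PMF C) : ℝ≥0∞ :=
  2⁻¹ * ∑' i, max (PX p i - PY p i) (PY p i - PX p i)

open Classical

noncomputable def e (q : C → ℝ≥0∞) (k : ℕ) : ℝ≥0∞ :=
  ∑' J : Finset C, if J.card = k then ∏ j ∈ J, q j else 0

noncomputable def ei (q : C → ℝ≥0∞) (i : C) (k : ℕ) : ℝ≥0∞ :=
  ∑' J : Finset C, if i ∉ J ∧ J.card = k then ∏ j ∈ J, q j else 0

theorem ei_le (q : C → ℝ≥0∞) (i : C) (k : ℕ) : ei q i k ≤ e q k :=
  ENNReal.tsum_le_tsum fun J => by
    split_ifs with h1 h2
    · exact le_rfl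
    · exact absurd h1.2 h2
    · exact zero_le
    · exact le_rfl

theorem flip (i : C) (g : Finset C → ℝ≥0∞) :
    ∑' J : Finset C, (if i ∈ J then g (J.erase i) else 0) = ∑' J, if i ∉ J then g J else 0 := by
  have hinv : Function.Involutive
      fun J : Finset C => if i ∈ J then J.erase i else insert i J := fun J => by
    by_cases h : i ∈ J <;> simp [h, insert_erase, erase_insert]
  rw [← hinv.toPerm.tsum_eq fun J => if i ∉ J then g J else 0]
  congr 1
  funext J
  by_cases h : i ∈ J <;> simp [h]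

theorem idA (q u : C → ℝ≥0∞) (k : ℕ) :
    ∑' J : Finset C, (if J.card = k + 1 then ∏ j ∈ J, q j else 0) * ∑ j ∈ J, u j =
      ∑' j, u j * q j * ei q j k := by
  have h1 : ∀ J : Finset C, ∑ j ∈ J, u j = ∑' j, if j ∈ J then u j else 0 := fun J => by
    rw [tsum_eq_sum (s := J) fun j hj => if_neg hj]
    exact sum_congr rfl fun j hj => (if_pos hj).symm
  simp only [h1, ← ENNReal.tsum_mul_left]
  rw [ENNReal.tsum_comm]
  congr 1
  funext j
  have h2 := flip j fun J => u j * q j * if J.card = k then ∏ j ∈ J, q j else 0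
  rw [ei, ← ENNReal.tsum_mul_left]
  refine Eq.trans ?_ (h2.trans ?_)
  · congr 1
    funext J
    by_cases h : j ∈ J
    · have := card_erase_add_one h
      simp only [h, if_true]
      by_cases h3 : J.card = k + 1
      · rw [if_pos h3, if_pos (by omega), ← mul_prod_erase J q h]
        ring
      · rw [if_neg h3, if_neg (by omega)]
        simp
    · simp [h]
  · congr 1
    funext J
    by_cases h : j ∈ J <;> simp [h]

theorem idB (q : C → ℝ≥0∞) (k : ℕ) : e q k * ∑' j, q j =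
    ∑' J : Finset C, (if J.card = k then ∏ j ∈ J, q j else 0) * ∑ j ∈ J, q j +
      ∑' j, q j * ei q j k := by
  have h1 : ∀ J : Finset C, ∑' j, q j = ∑ j ∈ J, q j + ∑' j, if j ∉ J then q j else 0 :=
    fun J => by
    have : ∑ j ∈ J, q j = ∑' j, if j ∈ J then q j else 0 := by
      rw [tsum_eq_sum (s := J) fun j hj => if_neg hj]
      exact sum_congr rfl fun j hj => (if_pos hj).symm
    rw [this, ← ENNReal.tsum_add]
    congr 1
    funext j
    by_cases h : j ∈ J <;> simp [h]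
  rw [e, ← ENNReal.tsum_mul_right]
  simp only [ei]
  rw [tsum_congr fun j => (ENNReal.tsum_mul_left (a := q j) (f := fun J : Finset C =>
    if j ∉ J ∧ J.card = k then ∏ j ∈ J, q j else 0)).symm, ENNReal.tsum_comm, ← ENNReal.tsum_add]
  congr 1
  funext J
  rw [h1 J, mul_add, ← ENNReal.tsum_mul_left]
  congr 2
  funext j
  by_cases h : j ∈ J <;> by_cases h' : J.card = k <;> simp [h, h', mul_comm]

theorem idC (q : C → ℝ≥0∞) (k : ℕ) : ∑' j, q j * ei q j k = (k + 1 : ℕ) * e q (k + 1) := by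
  have := idA q (fun _ => 1) k
  simp only [one_mul] at this
  rw [← this, e, ← ENNReal.tsum_mul_left]
  congr 1
  funext J
  split_ifs with h <;> simp [h, mul_comm]

theorem e_zero (q : C → ℝ≥0∞) : e q 0 = 1 := by
  rw [e, tsum_eq_single ∅ fun J hJ => if_neg (by simpa using hJ)]
  simp

noncomputable def b (q : C → ℝ≥0∞) (k : ℕ) : ℝ≥0∞ := (k ! : ℝ≥0∞) * e q k

theorem b_one (q : C → ℝ≥0∞) : b q 1 = ∑' j, q j := by
  have := idB q 0
  rw [idC, e_zero, one_mul, tsum_eq_single (∅ : Finset C) fun J hJ => by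
    rw [if_neg (by simpa using hJ), zero_mul]] at this
  simpa [b] using this.symm

theorem b_rec (q : C → ℝ≥0∞) (k : ℕ) : b q (k + 1) * ∑' j, q j =
    ∑' j, q j ^ 2 * (((k + 1)! : ℝ≥0∞) * ei q j k) + b q (k + 2) := by
  rw [b, mul_assoc, idB, idA, idC, mul_add, ← ENNReal.tsum_mul_left, b, Nat.factorial_succ (k + 1)]
  congr 1
  · congr 1
    funext j
    ring
  · push_cast
    ring

theorem PY_eq (p : PMF C) (i : C) :
    PY p i = ∑' k : ℕ, p i ^ 2 * (((k + 1)! : ℝ≥0∞) * ei p i k) := by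
  rw [PY, ← ENNReal.tsum_mul_left]
  congr 1
  funext k
  congr 2
  rw [ei]
  refine (tsum_subtype {J : Finset C | i ∉ J ∧ J.card = k} fun J => ∏ j ∈ J, p j).trans ?_
  congr 1
  funext J
  simp [Set.indicator_apply]

theorem sum_PY (p : PMF C) : ∑' i, PY p i ≤ 1 := by
  simp only [PY_eq]
  rw [ENNReal.tsum_comm]
  have key : ∀ n, ∑ k ∈ range n, ∑' i, p i ^ 2 * (((k + 1)! : ℝ≥0∞) * ei p i k) + b p (n + 1)
      = 1 := by
    intro n
    induction n with
    | zero => simp [b_one]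
    | succ n ih =>
      have := b_rec p n
      rw [p.tsum_coe, mul_one] at this
      rw [sum_range_succ, add_assoc, ← this, ih]
  exact ENNReal.tsum_le_of_sum_range_le fun n => le_self_add.trans (key n).le

theorem b_le (q : C → ℝ≥0∞) (hq : ∑' j, q j ≤ 1) (k : ℕ) : b q k ≤ 1 := by
  have : ∀ k, b q (k + 1) ≤ 1 := by
    intro k
    induction k with
    | zero => rwa [zero_add, b_one]
    | succ k ih =>
      exact le_add_self.trans ((b_rec q k).symm.le.trans (mul_le_one' ih hq))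
  cases k with
  | zero => simp [b, e_zero]
  | succ k => exact this k

theorem b_ge (q : C → ℝ≥0∞) (r f : ℝ≥0∞) (hq : ∑' j, q j + r = 1) (hf : ∑' j, q j ^ 2 ≤ f)
    (k : ℕ) : 1 ≤ b q k + k * r + k ^ 2 * f := by
  have hq' : ∑' j, q j ≤ 1 := le_self_add.trans hq.le
  have : ∀ k, 1 ≤ b q (k + 1) + (k + 1 : ℕ) * r + (k + 1 : ℕ) ^ 2 * f := by
    intro k
    induction k with
    | zero =>
      rw [zero_add, b_one, Nat.cast_one, one_mul, hq]
      exact le_self_add
    | succ k ih =>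
      have h1 : ∑' j, q j ^ 2 * (((k + 1)! : ℝ≥0∞) * ei q j k) ≤ f * (k + 1 : ℕ) := by
        refine le_trans (ENNReal.tsum_le_tsum fun j => mul_le_mul_right (?_ : _ ≤ ((k + 1 : ℕ) :
          ℝ≥0∞)) _) (by rw [ENNReal.tsum_mul_right]; exact mul_le_mul_left hf _)
        rw [Nat.factorial_succ, Nat.cast_mul, mul_assoc]
        exact mul_le_of_le_one_right' ((mul_le_mul_right (ei_le q j k) _).trans (b_le q hq' k))
      have h2 : b q (k + 1) ≤ f * (k + 1 : ℕ) + b q (k + 2) + r := by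
        calc b q (k + 1) = b q (k + 1) * ∑' j, q j + b q (k + 1) * r := by
              rw [← mul_add, hq, mul_one]
          _ ≤ _ := add_le_add (by rw [b_rec]; exact add_le_add h1 le_rfl)
              (mul_le_of_le_one_left' (b_le q hq' _))
      refine ih.trans ((add_le_add (add_le_add h2 le_rfl) le_rfl).trans ?_)
      push_cast
      have : f * (k + 1) + b q (k + 2) + r + (k + 1) * r + (k + 1) ^ 2 * f + (k + 2) * f =
          b q (k + 1 + 1) + (k + 1 + 1) * r + (k + 1 + 1) ^ 2 * f := by ring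
      exact le_self_add.trans this.le
  cases k with
  | zero => simp [b, e_zero]
  | succ k => exact this k

theorem real_bd (F P : ℝ) (hF : 0 < F) (hP : 0 ≤ P) (hPF : P ^ 2 ≤ F) (B : ℕ → ℝ)
    (hB : ∀ k : ℕ, 1 ≤ B k + k * P + k ^ 2 * F) :
    ∃ n, 1 / (32 * F) ≤ ∑ k ∈ range n, (k + 1) * B k := by
  set s := Real.sqrt F
  have hs : 0 < s := Real.sqrt_pos.2 hF
  have hs2 : s ^ 2 = F := Real.sq_sqrt hF.le
  have hPs : P ≤ s := Real.le_sqrt_of_sq_le hPF
  set K := ⌊1 / (2 * s)⌋₊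
  have h1 : (K : ℝ) ≤ 1 / (2 * s) := Nat.floor_le (by positivity)
  have h2 : 1 / (2 * s) < K + 1 := Nat.lt_floor_add_one _
  rw [le_div_iff₀ (by positivity)] at h1
  rw [div_lt_iff₀ (by positivity)] at h2
  have h3 : ∀ k ∈ range (K + 1), ((k : ℝ) + 1) * (1 / 4) ≤ (k + 1) * B k := fun k hk => by
    have h4 : (k : ℝ) ≤ K := by exact_mod_cast Nat.lt_succ_iff.1 (mem_range.1 hk)
    have h5 : (0 : ℝ) ≤ k := by positivity
    have h6 : k * s ≤ 1 / 2 := by nlinarith
    have h7 : k * P ≤ k * s := mul_le_mul_of_nonneg_left hPs h5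
    have h8 : (k : ℝ) ^ 2 * F ≤ 1 / 4 := by
      rw [← hs2, ← mul_pow]
      nlinarith [mul_nonneg h5 hs.le]
    refine mul_le_mul_of_nonneg_left ?_ (by positivity)
    linarith [hB k]
  have h4 : ∀ n : ℕ, ∑ k ∈ range n, ((k : ℝ) + 1) * (1 / 4) = n * (n + 1) / 8 := fun n => by
    induction n with
    | zero => simp
    | succ n ih => rw [sum_range_succ, ih]; push_cast; ring
  refine ⟨K + 1, le_trans ?_ (sum_le_sum h3)⟩
  rw [h4, div_le_iff₀ (by positivity), ← hs2]
  push_cast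
  have h5 : (0 : ℝ) ≤ K := by positivity
  nlinarith [mul_pos hs hs]

theorem PY_ge (p : PMF C) (i : C) : PX p i / 32 ≤ PY p i := by
  set f := ∑' j, p j ^ 2 with hf
  have hf1 : f ≤ 1 := (ENNReal.tsum_le_tsum fun j => by
    rw [sq]; exact mul_le_of_le_one_right' (p.coe_le_one j)).trans p.tsum_coe.le
  have hft : f ≠ ∞ := ne_top_of_le_ne_top ENNReal.one_ne_top hf1
  have hf0 : f ≠ 0 := by
    obtain ⟨j, hj⟩ := p.support_nonempty
    exact fun h => hj (pow_eq_zero_iff two_ne_zero |>.1 (ENNReal.tsum_eq_zero.1 h j))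
  let q : C → ℝ≥0∞ := fun j => if j = i then 0 else p j
  have hq : ∑' j, q j + p i = 1 := by
    rw [← p.tsum_coe, ENNReal.tsum_eq_add_tsum_ite (f := p) i, add_comm]
  have hq2 : ∑' j, q j ^ 2 ≤ f := ENNReal.tsum_le_tsum fun j => by
    simp only [q]; split_ifs <;> simp
  have he : ∀ k, ei p i k = e q k := fun k => by
    rw [ei, e]
    congr 1
    funext J
    by_cases h : i ∈ J
    · rw [if_neg fun h' => h'.1 h, prod_eq_zero (f := q) h (if_pos rfl), ite_self]
    · simp only [h, not_false_eq_true, true_and]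
      rw [prod_congr rfl fun j hj => (if_neg fun e : j = i => h (e ▸ hj) : q j = p j)]
  have hbt : ∀ k, b q k ≠ ∞ := fun k =>
    ne_top_of_le_ne_top ENNReal.one_ne_top (b_le q (le_self_add.trans hq.le) k)
  have hpt := p.apply_ne_top i
  obtain ⟨n, hn⟩ := real_bd f.toReal (p i).toReal (ENNReal.toReal_pos hf0 hft) ENNReal.toReal_nonneg
    (by rw [← ENNReal.toReal_pow]; exact ENNReal.toReal_mono hft (ENNReal.le_tsum i))
    (fun k => (b q k).toReal) fun k => by
      have := ENNReal.toReal_mono (by have := hbt k; finiteness) (b_ge q (p i) f hq hq2 k)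
      rw [ENNReal.toReal_add (by have := hbt k; finiteness) (by finiteness),
        ENNReal.toReal_add (hbt k) (by finiteness)] at this
      simpa using this
  have h2 : (32 * f)⁻¹ ≤ ∑ k ∈ range n, ((k + 1)! : ℝ≥0∞) * ei p i k := by
    have : ∀ k, ((k + 1)! : ℝ≥0∞) * ei p i k = (k + 1) * b q k := fun k => by
      rw [he, b, Nat.factorial_succ]; push_cast; ring
    simp only [this]
    rw [← ENNReal.toReal_le_toReal (by simp [hf0]) (ENNReal.sum_ne_top.2 fun k _ => by
      have := hbt k; finiteness), ENNReal.toReal_sum fun k _ => by have := hbt k; finiteness]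
    simpa [ENNReal.toReal_add] using hn
  rw [PY_eq, ENNReal.tsum_mul_left, PX, ← hf, div_eq_mul_inv, div_eq_mul_inv, mul_assoc]
  refine mul_le_mul_right (le_trans (le_of_eq ?_) (h2.trans (ENNReal.sum_le_tsum _))) _
  rw [ENNReal.mul_inv (by simp) (by simp), mul_comm]

theorem abs_le (x y m : ℝ≥0∞) (h1 : m ≤ x) (h2 : m ≤ y) :
    max (x - y) (y - x) + 2 * m ≤ x + y := by
  rcases le_total x y with h | h
  · rw [tsub_eq_zero_of_le h, max_eq_right zero_le, two_mul, ← add_assoc, add_comm x y]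
    exact add_le_add ((add_le_add le_rfl h1).trans (tsub_add_cancel_of_le h).le) h1
  · rw [tsub_eq_zero_of_le h, max_eq_left zero_le, two_mul, ← add_assoc]
    exact add_le_add ((add_le_add le_rfl h2).trans (tsub_add_cancel_of_le h).le) h2

/-- `ℓ₀ ≤ 31 / 32 < 1`. -/
theorem result : ∀ (C : Type) [Countable C] (p : PMF C), D p ≤ 31 / 32 := by
  intro C _ p
  have hf1 : ∑' j, p j ^ 2 ≤ 1 := (ENNReal.tsum_le_tsum fun j => by
    rw [sq]; exact mul_le_of_le_one_right' (p.coe_le_one j)).trans p.tsum_coe.le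
  have hf0 : ∑' j, p j ^ 2 ≠ 0 := by
    obtain ⟨j, hj⟩ := p.support_nonempty
    exact fun h => hj (pow_eq_zero_iff two_ne_zero |>.1 (ENNReal.tsum_eq_zero.1 h j))
  have hX : ∑' i, PX p i = 1 := by
    simp only [PX, div_eq_mul_inv]
    rw [ENNReal.tsum_mul_right, ENNReal.mul_inv_cancel hf0
      (ne_top_of_le_ne_top ENNReal.one_ne_top hf1)]
  have h1 := ENNReal.tsum_le_tsum fun i => abs_le (PX p i) (PY p i) (PX p i / 32)
    (ENNReal.div_le_of_le_mul (le_mul_of_one_le_right' (by norm_num))) (PY_ge p i)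
  simp only [div_eq_mul_inv] at h1
  rw [ENNReal.tsum_add, ENNReal.tsum_add, ENNReal.tsum_mul_left, ENNReal.tsum_mul_right, hX] at h1
  have h2 := h1.trans (add_le_add le_rfl (sum_PY p))
  unfold D
  generalize ∑' i, max (PX p i - PY p i) (PY p i - PX p i) = T at h2 ⊢
  have hT : T ≠ ∞ := ne_top_of_le_ne_top (by finiteness) (le_self_add.trans h2)
  rw [← ENNReal.toReal_le_toReal (by finiteness) (by finiteness)] at h2 ⊢
  rw [ENNReal.toReal_add hT (by finiteness), ENNReal.toReal_add (by finiteness) (by finiteness)]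
    at h2
  simp at h2 ⊢
  linarith

end Pool.Agent.Results.MP_c9cfcf_pr.Bound
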